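import Pool.Agent.Lib.MP_b5021c_nt.IfaceSF

/-!
# Rows SF_CZM and SF_CZI: the function `C₁`
-/

namespace Pool.Agent.B5.H09

open scoped LaurentPolynomial Topology ComplexConjugate
open Polynomial Filter

noncomputable section

section Cz

variable {q f : ℤ[X]} {T' : ℝ} {s W : ℂ[X]}

theorem cpz_coeff (q : ℤ[X]) (n : ℕ) : (cpz q).coeff n = ((q.coeff n : ℤ) : ℂ) := by
  unfold cpz
  rw [coeff_map]
  exact eq_intCast (Coef.emb : ℤ →+* ℂ) _

theorem T'_ne (h : C1D q f T' s W) : T' ≠ 0 := by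
  rintro rfl
  have := h.one
  rw [abs_zero] at this
  linarith

/-- The basic identity `z W = (1 - z²) s - (q - z f) (1 - a' z)`. -/
theorem w_eval (h : C1D q f T' s W) (z : ℂ) :
    z * W.eval z = (1 - z ^ 2) * s.eval z -
      (cpz (q - X * f)).eval z * (1 - ((T'⁻¹ : ℝ) : ℂ) * z) := by
  have h1 := congrArg (fun p => p.eval z) h.w
  simpa using h1

theorem v_eval (h : C1D q f T' s W) (z : ℂ) :
    (cpz (q + X * f)).eval z = (1 - (T' : ℂ) * z) * s.eval z := by
  have h1 := congrArg (fun p => p.eval z) h.v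
  simpa using h1

theorem circ (z : ℂ) (hz : ‖z‖ = 1) : z * conj z = 1 := by
  rw [Complex.mul_conj, Complex.normSq_eq_norm_sq, hz]
  norm_num

/-- On the circle: `Re (a' W conj s) = a'² Re ((q - z f) conj v)`. -/
theorem circle_re (h : C1D q f T' s W) (z : ℂ) (hz : ‖z‖ = 1) :
    (((T'⁻¹ : ℝ) : ℂ) * W.eval z * conj (s.eval z)).re =
      T'⁻¹ ^ 2 * ((cpz (q - X * f)).eval z * conj ((cpz (q + X * f)).eval z)).re := by
  have hT := T'_ne h
  have hT2 : (T' : ℂ) ≠ 0 := by exact_mod_cast hT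
  have hc := circ z hz
  have hz0 : z ≠ 0 := by
    rintro rfl
    rw [norm_zero] at hz; norm_num at hz
  have h1 := w_eval h z
  have h2 : W.eval z = (conj z - z) * s.eval z -
      conj z * (1 - ((T'⁻¹ : ℝ) : ℂ) * z) * (cpz (q - X * f)).eval z := by
    have h3 : W.eval z = conj z * (z * W.eval z) := by
      rw [← mul_assoc, mul_comm (conj z) z, hc, one_mul]
    rw [h3, h1]
    linear_combination (-z) * s.eval z * hc
  have h4 : conj ((cpz (q + X * f)).eval z) = (1 - (T' : ℂ) * conj z) * conj (s.eval z) := by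
    rw [v_eval h z]
    simp
  have h5 : ((T'⁻¹ : ℝ) : ℂ) * W.eval z * conj (s.eval z) =
      ((T'⁻¹ : ℝ) : ℂ) * (conj z - z) * (s.eval z * conj (s.eval z)) +
        ((T'⁻¹ ^ 2 : ℝ) : ℂ) *
          ((cpz (q - X * f)).eval z * conj ((cpz (q + X * f)).eval z)) := by
    rw [h2, h4]
    push_cast
    field_simp
    linear_combination ((cpz (q - X * f)).eval z) * conj (s.eval z) * hc
  rw [h5, Complex.add_re, Complex.re_ofReal_mul]
  have h6 : (((T'⁻¹ : ℝ) : ℂ) * (conj z - z) * (s.eval z * conj (s.eval z))).re = 0 := by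
    rw [Complex.mul_conj]
    rw [mul_assoc, Complex.re_ofReal_mul, Complex.re_mul_ofReal]
    simp
  rw [h6, zero_add]

theorem norm_v (h : C1D q f T' s W) (z : ℂ) :
    ‖(cpz (q + X * f)).eval z‖ ^ 2 =
      T' ^ 2 * (‖z - ((T'⁻¹ : ℝ) : ℂ)‖ ^ 2 * ‖s.eval z‖ ^ 2) := by
  have hT := T'_ne h
  have hT2 : (T' : ℂ) ≠ 0 := by exact_mod_cast hT
  have h1 : (1 - (T' : ℂ) * z) = -(T' : ℂ) * (z - ((T'⁻¹ : ℝ) : ℂ)) := by
    push_cast
    field_simp
    ring
  rw [v_eval h z, h1, norm_mul, norm_mul, norm_neg, Complex.norm_real, Real.norm_eq_abs,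
    mul_pow, mul_pow, sq_abs, mul_assoc]

theorem s_zero (h : C1D q f T' s W) : s.coeff 0 = ((q.coeff 0 : ℤ) : ℂ) := by
  have h1 := v_eval h 0
  rw [mul_zero, sub_zero, one_mul, ← coeff_zero_eq_eval_zero, ← coeff_zero_eq_eval_zero,
    cpz_coeff] at h1
  rw [← h1]
  simp

theorem s_one (h : C1D q f T' s W) : s.coeff 1 = ((q.coeff 1 : ℤ) : ℂ) + ((f.coeff 0 : ℤ) : ℂ) +
    (T' : ℂ) * ((q.coeff 0 : ℤ) : ℂ) := by
  have h1 := congrArg (fun p => p.coeff 1) h.v
  simp only [cpz_coeff] at h1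
  have h2 : ((1 - C (T' : ℂ) * X) * s).coeff 1 = s.coeff 1 - (T' : ℂ) * s.coeff 0 := by
    rw [sub_mul, one_mul, coeff_sub, mul_assoc, coeff_C_mul]
    have h3 : (X * s).coeff 1 = s.coeff 0 := coeff_X_mul s 0
    rw [h3]
  rw [h2, s_zero h] at h1
  have h4 : (q + X * f).coeff 1 = q.coeff 1 + f.coeff 0 := by
    rw [coeff_add]
    congr 1
    exact coeff_X_mul f 0
  rw [h4] at h1
  push_cast at h1
  linear_combination -h1

theorem W_zero (h : C1D q f T' s W) : W.coeff 0 = 2 * ((f.coeff 0 : ℤ) : ℂ) +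
    ((T' : ℂ) + ((T'⁻¹ : ℝ) : ℂ)) * ((q.coeff 0 : ℤ) : ℂ) := by
  have h1 := congrArg (fun p => p.coeff 1) h.w
  have h2 : (X * W).coeff 1 = W.coeff 0 := coeff_X_mul W 0
  rw [h2, coeff_sub] at h1
  have h3 : ((1 - X ^ 2) * s : ℂ[X]).coeff 1 = s.coeff 1 := by
    rw [sub_mul, one_mul, coeff_sub]
    have h4 : (X ^ 2 * s : ℂ[X]).coeff 1 = 0 := by
      rw [coeff_X_pow_mul']
      simp
    rw [h4, sub_zero]
  have h5 : (cpz (q - X * f) * (1 - C ((T'⁻¹ : ℝ) : ℂ) * X)).coeff 1 =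
      (cpz (q - X * f)).coeff 1 - ((T'⁻¹ : ℝ) : ℂ) * (cpz (q - X * f)).coeff 0 := by
    rw [mul_sub, mul_one, coeff_sub, ← mul_assoc, mul_comm _ (C _), mul_assoc, coeff_C_mul]
    rw [coeff_mul_X (cpz (q - X * f)) 0]
  have h6 : (q - X * f).coeff 1 = q.coeff 1 - f.coeff 0 := by
    rw [coeff_sub]
    congr 1
    exact coeff_X_mul f 0
  have h7 : (q - X * f).coeff 0 = q.coeff 0 := by
    simp
  rw [h3, h5, cpz_coeff, cpz_coeff, h6, h7, s_one h] at h1
  rw [h1]
  push_cast
  ring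

end Cz

theorem sf_czm (hH : HpgS) (hHar : HarS) : CzmS := by
  intro q f T T' s W r hL h hT hqT hm
  have hT' := T'_ne h
  have hTc : (T' : ℂ) ≠ 0 := by exact_mod_cast hT'
  set a' : ℝ := T'⁻¹ with ha'
  set W2 : ℂ[X] := C ((a' : ℝ) : ℂ) * W - r * s with hW2
  have hW2e : ∀ z : ℂ, (W2.eval z * conj (s.eval z)).re =
      (((a' : ℝ) : ℂ) * W.eval z * conj (s.eval z)).re - (r.eval z).re * ‖s.eval z‖ ^ 2 := by
    intro z
    have h1 : W2.eval z * conj (s.eval z) = ((a' : ℝ) : ℂ) * W.eval z * conj (s.eval z) -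
        r.eval z * ((‖s.eval z‖ ^ 2 : ℝ) : ℂ) := by
      have h2 : s.eval z * conj (s.eval z) = ((‖s.eval z‖ ^ 2 : ℝ) : ℂ) := by
        rw [Complex.mul_conj, Complex.normSq_eq_norm_sq]
      rw [← h2, hW2]
      simp only [eval_sub, eval_mul, eval_C]
      ring
    rw [h1, Complex.sub_re, Complex.re_mul_ofReal]
  -- a bound for `r`
  obtain ⟨K, hK⟩ : ∃ K : ℝ, ∀ z : ℂ, ‖z‖ ≤ 1 → ‖r.eval z‖ ≤ K := by
    have hc : ContinuousOn (fun z : ℂ => r.eval z) (Metric.closedBall 0 1) :=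
      r.continuous.continuousOn
    obtain ⟨K, hK⟩ := (isCompact_closedBall (0 : ℂ) 1).exists_bound_of_continuousOn hc
    exact ⟨K, fun z hz => hK z (by simpa using hz)⟩
  have key : ∀ z : ℂ, ‖z‖ < 1 → 0 ≤ (W2.eval z * conj (s.eval z)).re := by
    apply hH s W2 K h.zf
    · intro z hz
      rw [hW2e z]
      have h1 := h.re z hz
      have h2 : (r.eval z).re ≤ K := (Complex.re_le_norm _).trans (hK z hz.le)
      have h3 : (r.eval z).re * ‖s.eval z‖ ^ 2 ≤ K * ‖s.eval z‖ ^ 2 :=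
        mul_le_mul_of_nonneg_right h2 (sq_nonneg _)
      rw [ha'] at *
      linarith
    · -- on the circle
      have hgen : ∀ z : ℂ, ‖z‖ = 1 → z ≠ ((a' : ℝ) : ℂ) →
          0 ≤ (W2.eval z * conj (s.eval z)).re := by
        intro z hz hza
        rw [hW2e z, circle_re h z hz]
        have h1 := hm z hz
        rw [norm_v h z] at h1
        have h2 : 0 < ‖z - ((a' : ℝ) : ℂ)‖ ^ 2 := by
          have : z - ((a' : ℝ) : ℂ) ≠ 0 := sub_ne_zero.mpr hza
          positivity
        have h3 : (r.eval z).re * (T' ^ 2 * ‖s.eval z‖ ^ 2) ≤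
            ((cpz (q - X * f)).eval z * conj ((cpz (q + X * f)).eval z)).re := by
          have h4 : ‖z - ((a' : ℝ) : ℂ)‖ ^ 2 * ((r.eval z).re * (T' ^ 2 * ‖s.eval z‖ ^ 2)) ≤
              ‖z - ((a' : ℝ) : ℂ)‖ ^ 2 *
                ((cpz (q - X * f)).eval z * conj ((cpz (q + X * f)).eval z)).re := by
            calc _ = (r.eval z).re * (T' ^ 2 * (‖z - ((a' : ℝ) : ℂ)‖ ^ 2 * ‖s.eval z‖ ^ 2)) := by
                  ring
              _ ≤ _ := h1
          exact le_of_mul_le_mul_left h4 h2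
        have h5 : a' ^ 2 * T' ^ 2 = 1 := by
          rw [ha', ← mul_pow, inv_mul_cancel₀ hT', one_pow]
        have h6 := mul_le_mul_of_nonneg_left h3 (sq_nonneg a')
        have h7 : a' ^ 2 * ((r.eval z).re * (T' ^ 2 * ‖s.eval z‖ ^ 2)) =
            (r.eval z).re * ‖s.eval z‖ ^ 2 := by
          linear_combination ((r.eval z).re * ‖s.eval z‖ ^ 2) * h5
        rw [h7] at h6
        linarith
      intro z hz
      by_cases hza : z = ((a' : ℝ) : ℂ)
      · -- continuity
        have hcont : Continuous fun x : ℝ => (W2.eval (z * Complex.exp (x * Complex.I)) *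
            conj (s.eval (z * Complex.exp (x * Complex.I)))).re := by
          have h1 : Continuous fun x : ℝ => z * Complex.exp (x * Complex.I) := by fun_prop
          exact Complex.continuous_re.comp (((W2.continuous).comp h1).mul
            (Complex.continuous_conj.comp ((s.continuous).comp h1)))
        have ht : Tendsto (fun x : ℝ => (W2.eval (z * Complex.exp (x * Complex.I)) *
            conj (s.eval (z * Complex.exp (x * Complex.I)))).re) (𝓝[>] 0)
            (𝓝 ((W2.eval z * conj (s.eval z)).re)) := by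
          have h1 := (hcont.tendsto 0).mono_left (nhdsWithin_le_nhds (s := Set.Ioi (0 : ℝ)))
          simpa using h1
        have hz0 : z ≠ 0 := by
          rintro rfl
          rw [norm_zero] at hz; norm_num at hz
        refine ge_of_tendsto ht ?_
        have hev : ∀ᶠ x : ℝ in 𝓝[>] 0, x < 1 :=
          (eventually_lt_nhds (by norm_num)).filter_mono nhdsWithin_le_nhds
        filter_upwards [hev, self_mem_nhdsWithin] with x hx hx0
        have hx0' : (0 : ℝ) < x := hx0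
        apply hgen
        · rw [norm_mul, hz, one_mul, Complex.norm_exp_ofReal_mul_I]
        · intro he
          rw [← hza] at he
          have h2 : Complex.exp (x * Complex.I) = 1 := by
            have := mul_left_cancel₀ hz0 (he.trans (mul_one z).symm)
            exact this
          rw [Complex.exp_eq_one_iff] at h2
          obtain ⟨n, hn⟩ := h2
          have h3 : (x : ℂ) = n * (2 * Real.pi) := by
            have h4 : (x : ℂ) * Complex.I = (n * (2 * Real.pi)) * Complex.I := by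
              rw [hn]; ring
            exact mul_right_cancel₀ Complex.I_ne_zero h4
          have h5 : x = n * (2 * Real.pi) := by exact_mod_cast h3
          have hpi := Real.pi_gt_three
          rcases lt_trichotomy n 0 with hn0 | hn0 | hn0
          · have : (n : ℝ) ≤ -1 := by exact_mod_cast Int.le_sub_one_of_lt hn0
            nlinarith
          · rw [hn0] at h5; simp at h5; linarith
          · have : (1 : ℝ) ≤ n := by exact_mod_cast hn0
            nlinarith
      · exact hgen z hz hza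
  -- the values at `0`
  have hq0 : ((q.coeff 0 : ℤ) : ℝ) ^ 2 = 1 := by
    have h1 := hL.q0
    have h2 : (q.coeff 0) ^ 2 = 1 := by rw [← sq_abs, h1]; norm_num
    exact_mod_cast h2
  have hs0 : s.eval 0 = ((q.coeff 0 : ℤ) : ℂ) := by
    rw [← coeff_zero_eq_eval_zero, s_zero h]
  have hW0 : W.eval 0 = 2 * ((f.coeff 0 : ℤ) : ℂ) +
      ((T' : ℂ) + ((a' : ℝ) : ℂ)) * ((q.coeff 0 : ℤ) : ℂ) := by
    rw [← coeff_zero_eq_eval_zero, W_zero h]
  have hTa : (T' : ℂ) * ((a' : ℝ) : ℂ) = 1 := by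
    rw [ha']; push_cast; exact mul_inv_cancel₀ hTc
  have hq0c : ((q.coeff 0 : ℤ) : ℂ) ^ 2 = 1 := by exact_mod_cast hq0
  set Cf : ℂ → ℂ := fun z => W2.eval z / s.eval z with hCf
  have hsne : ∀ z : ℂ, ‖z‖ < 1 → s.eval z ≠ 0 := fun z hz => h.zf z hz
  have hq00 : ((q.coeff 0 : ℤ) : ℂ) ≠ 0 := by
    intro h0
    rw [h0] at hq0c
    norm_num at hq0c
  have hC0 : Cf 0 = ((1 + a' ^ 2 + 2 * a' * ((f.coeff 0 * q.coeff 0 : ℤ) : ℝ) : ℝ) : ℂ) -
      r.coeff 0 := by
    rw [hCf]
    simp only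
    rw [hW2]
    simp only [eval_sub, eval_mul, eval_C]
    rw [hs0, hW0, div_eq_iff hq00, ← coeff_zero_eq_eval_zero r]
    push_cast
    linear_combination (((q.coeff 0 : ℤ) : ℂ)) * hTa +
      (-2 * (a' : ℂ) * ((f.coeff 0 : ℤ) : ℂ)) * hq0c
  have hre : ∀ z : ℂ, ‖z‖ < 1 → 0 ≤ (Cf z).re := by
    intro z hz
    have h1 := key z hz
    have h2 := hsne z hz
    have h3 : Cf z = W2.eval z * conj (s.eval z) * (((‖s.eval z‖ ^ 2)⁻¹ : ℝ) : ℂ) := by
      have h4 : s.eval z * conj (s.eval z) = ((‖s.eval z‖ ^ 2 : ℝ) : ℂ) := by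
        rw [Complex.mul_conj, Complex.normSq_eq_norm_sq]
      have h5 : conj (s.eval z) ≠ 0 := by simpa using h2
      rw [Complex.ofReal_inv, ← h4, hCf]
      field_simp
    rw [h3, Complex.re_mul_ofReal]
    positivity
  have hdiff : DifferentiableOn ℂ Cf (Metric.ball 0 1) := by
    intro z hz
    have h1 : ‖z‖ < 1 := by simpa using hz
    exact ((W2.differentiable z).div (s.differentiable z) (hsne z h1)).differentiableWithinAt
  have hi : (r.coeff 0).re ≤ 1 + a' ^ 2 + 2 * a' * ((f.coeff 0 * q.coeff 0 : ℤ) : ℝ) := by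
    have h1 := hre 0 (by rw [norm_zero]; norm_num)
    rw [hC0, Complex.sub_re, Complex.ofReal_re] at h1
    linarith
  refine ⟨hi, ?_⟩
  -- the value at `a = 1/T`
  have hT0 : T ≠ 0 := by
    rintro rfl
    rw [abs_zero] at hT; linarith
  have hTC : (T : ℂ) ≠ 0 := by exact_mod_cast hT0
  set a : ℂ := ((T⁻¹ : ℝ) : ℂ) with ha
  have han : ‖a‖ = |T⁻¹| := by rw [ha, Complex.norm_real, Real.norm_eq_abs]
  have ha1 : ‖a‖ < 1 := by
    rw [han, abs_inv]
    exact inv_lt_one_of_one_lt₀ hT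
  have ha0 : a ≠ 0 := by
    rw [ha]; push_cast; exact inv_ne_zero hTC
  have hTa1 : (T : ℂ) * a = 1 := by
    rw [ha]; push_cast; exact mul_inv_cancel₀ hTC
  have hCa : Cf a = ((2 * a' * T - 1 - a' ^ 2 : ℝ) : ℂ) - r.eval a := by
    have h1 := w_eval h a
    have h2 := v_eval h a
    have h3 : (cpz (q - X * f)).eval a = -(cpz (q + X * f)).eval a := by
      have h4 : (cpz (q - X * f)).eval a = (cpz q).eval a - a * (cpz f).eval a := by
        simp [cpz]
      have h5 : (cpz (q + X * f)).eval a = (cpz q).eval a + a * (cpz f).eval a := by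
        simp [cpz]
      rw [h4, h5, hqT]
      ring
    have h6 := hsne a ha1
    rw [hCf]
    simp only
    rw [hW2]
    simp only [eval_sub, eval_mul, eval_C]
    rw [div_eq_iff h6]
    rw [h3, h2] at h1
    have h7 : a * (((a' : ℝ) : ℂ) * W.eval a - r.eval a * s.eval a) =
        a * ((((2 * a' * T - 1 - a' ^ 2 : ℝ) : ℂ) - r.eval a) * s.eval a) := by
      push_cast
      have h8 : (a' : ℂ) * (a * W.eval a) = (a' : ℂ) * ((1 - a ^ 2) * s.eval a -
        -((1 - (T' : ℂ) * a) * s.eval a) * (1 - (a' : ℂ) * a)) := by rw [h1]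
      linear_combination h8 + (-2 * (a' : ℂ) * s.eval a) * hTa1 +
        (a ^ 2 * (a' : ℂ) * s.eval a - a * s.eval a) * hTa
    exact mul_left_cancel₀ ha0 h7
  have h1 := hHar Cf a hdiff hre ha1
  rw [hC0, hCa, Complex.sub_re, Complex.ofReal_re, Complex.sub_re, Complex.ofReal_re, han] at h1
  linarith

end

end Pool.Agent.B5.H09
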