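import Pool.Agent.Lib.MP_b5021c_nt.SF.H09.Czm

/-!
# Row SF_CZI: integrability of `|z - a'|² Re (q/v)`
-/

namespace Pool.Agent.B5.H09

open scoped LaurentPolynomial Topology ComplexConjugate
open Polynomial Filter

noncomputable section

theorem re_div' (x y : ℂ) : (x / y).re = (x * conj y).re / ‖y‖ ^ 2 := by
  rw [Complex.div_re, Complex.normSq_eq_norm_sq, Complex.mul_re, Complex.conj_re, Complex.conj_im]
  ring

theorem sf_czi (hF : FatS) : CziS := by
  intro q f T' s W hL h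
  have hT' := T'_ne h
  have hTc : (T' : ℂ) ≠ 0 := by exact_mod_cast hT'
  have hsne : ∀ z : ℂ, ‖z‖ < 1 → s.eval z ≠ 0 := fun z hz => h.zf z hz
  have hs0 : s ≠ 0 := by
    rintro rfl
    exact hsne 0 (by rw [norm_zero]; norm_num) (by simp)
  set a' : ℝ := T'⁻¹ with ha'
  set E : Set ℂ := {z | s.IsRoot z} ∪ {((a' : ℝ) : ℂ)} with hE
  have hEf : E.Finite := (Polynomial.finite_setOfPred_isRoot hs0).union (Set.finite_singleton _)
  set g : ℂ → ℝ := fun z => ‖z - ((a' : ℝ) : ℂ)‖ ^ 2 *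
    ((cpz (q - X * f)).eval z / (cpz (q + X * f)).eval z).re with hg
  have hvne : ∀ z : ℂ, z ∉ E → s.eval z ≠ 0 ∧ z - ((a' : ℝ) : ℂ) ≠ 0 := by
    intro z hz
    rw [hE] at hz
    simp only [Set.mem_union, Set.mem_ofPred_eq, Set.mem_singleton_iff, not_or] at hz
    exact ⟨hz.1, sub_ne_zero.mpr hz.2⟩
  -- the boundary values of `C₁`
  have hbd : ∀ z : ℂ, ‖z‖ = 1 → z ∉ E → (((a' : ℝ) : ℂ) * W.eval z / s.eval z).re = g z := by
    intro z hz hzE
    obtain ⟨h1, h2⟩ := hvne z hzE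
    have h3 : ‖s.eval z‖ ^ 2 ≠ 0 := by positivity
    have h4 : ‖z - ((a' : ℝ) : ℂ)‖ ^ 2 ≠ 0 := by positivity
    rw [hg]
    simp only
    rw [re_div', re_div', circle_re h z hz, norm_v h z]
    have h5 : T' ^ 2 ≠ 0 := pow_ne_zero _ hT'
    have hfin : ∀ (n1 n2 R t : ℝ), n1 ≠ 0 → n2 ≠ 0 → t ≠ 0 →
        t⁻¹ ^ 2 * R / n2 = n1 * (R / (t ^ 2 * (n1 * n2))) := by
      intro n1 n2 R t hn1 hn2 ht
      field_simp
    exact hfin _ _ _ _ h4 h3 hT'
  have hgi : CircleIntegrable g 0 1 := by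
    refine (hF (fun z => ((a' : ℝ) : ℂ) * W.eval z / s.eval z) g E hEf ?_ ?_ ?_).1
    · intro z hz
      have h1 : ‖z‖ < 1 := by simpa using hz
      exact (((W.differentiable z).const_mul _).div (s.differentiable z)
        (hsne z h1)).differentiableWithinAt
    · intro z hz
      rw [re_div']
      have h1 := h.re z hz
      exact div_nonneg h1 (sq_nonneg _)
    · intro z hz hzE
      rw [← hbd z hz hzE]
      obtain ⟨h1, h2⟩ := hvne z hzE
      have hc : ContinuousAt (fun t : ℝ => (((a' : ℝ) : ℂ) * W.eval ((t : ℂ) * z) /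
          s.eval ((t : ℂ) * z)).re) 1 := by
        have hl : Continuous fun t : ℝ => (t : ℂ) * z := by fun_prop
        apply Complex.continuous_re.continuousAt.comp
        apply ContinuousAt.div
        · exact (continuous_const.mul (W.continuous.comp hl)).continuousAt
        · exact (s.continuous.comp hl).continuousAt
        · simpa using h1
      have h3 := hc.tendsto.mono_left (nhdsWithin_le_nhds (s := Set.Iio (1 : ℝ)))
      simpa using h3
  have hcod : Eᶜ ∈ codiscreteWithin (Metric.sphere (0 : ℂ) |1|) :=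
    codiscreteWithin_mono (Set.subset_univ _) hEf.compl_mem_codiscrete
  have hni : CircleIntegrable (fun z : ℂ => ‖z - ((a' : ℝ) : ℂ)‖ ^ 2) 0 1 := by
    apply ContinuousOn.circleIntegrable (by norm_num)
    fun_prop
  have hsum : CircleIntegrable (fun z : ℂ => ((1 : ℝ) / 2) • (‖z - ((a' : ℝ) : ℂ)‖ ^ 2 + g z)) 0 1 :=
    CircleIntegrable.const_fun_smul (hni.add hgi)
  have h1 : CircleIntegrable (fun z => ‖z - ((a' : ℝ) : ℂ)‖ ^ 2 *
      ((cpz q).eval z / (cpz (q + X * f)).eval z).re) 0 1 := by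
    refine CircleIntegrable.congr_codiscreteWithin ?_ hsum
    filter_upwards [hcod] with z hzE
    obtain ⟨h2, h3⟩ := hvne z hzE
    have hv : (cpz (q + X * f)).eval z ≠ 0 := by
      rw [v_eval h z]
      refine mul_ne_zero ?_ h2
      intro h4
      apply h3
      have h5 : (T' : ℂ) * z = 1 := (sub_eq_zero.mp h4).symm
      have h6 : z = ((a' : ℝ) : ℂ) := by
        rw [ha']; push_cast
        exact eq_inv_of_mul_eq_one_right h5
      rw [h6, sub_self]
    have h4 : (cpz q).eval z = ((cpz (q + X * f)).eval z + (cpz (q - X * f)).eval z) / 2 := by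
      simp [cpz]
    rw [h4, hg]
    simp only [smul_eq_mul]
    have h5 : (((cpz (q + X * f)).eval z + (cpz (q - X * f)).eval z) / 2 /
        (cpz (q + X * f)).eval z).re =
        (1 + ((cpz (q - X * f)).eval z / (cpz (q + X * f)).eval z).re) / 2 := by
      have h6 : ((cpz (q + X * f)).eval z + (cpz (q - X * f)).eval z) / 2 /
          (cpz (q + X * f)).eval z =
          (1 + (cpz (q - X * f)).eval z / (cpz (q + X * f)).eval z) / ((2 : ℝ) : ℂ) := by
        push_cast
        field_simp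
      rw [h6, Complex.div_ofReal_re, Complex.add_re, Complex.one_re]
    rw [h5]
    ring
  refine ⟨h1, fun hT1 => ?_⟩
  have ha1 : |a'| < 1 := by
    rw [ha', abs_inv]
    exact inv_lt_one_of_one_lt₀ hT1
  have hne : ∀ θ : ℝ, ‖circleMap 0 1 θ - ((a' : ℝ) : ℂ)‖ ^ 2 ≠ 0 := by
    intro θ
    have h2 : circleMap 0 1 θ - ((a' : ℝ) : ℂ) ≠ 0 := by
      intro h3
      have h4 : ‖circleMap 0 1 θ‖ = ‖((a' : ℝ) : ℂ)‖ := by rw [sub_eq_zero.mp h3]
      rw [norm_circleMap_zero, Complex.norm_real, Real.norm_eq_abs, abs_one] at h4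
      linarith
    positivity
  have h2 : IntervalIntegrable (fun θ => (‖circleMap 0 1 θ - ((a' : ℝ) : ℂ)‖ ^ 2 *
      ((cpz q).eval (circleMap 0 1 θ) / (cpz (q + X * f)).eval (circleMap 0 1 θ)).re) *
      (‖circleMap 0 1 θ - ((a' : ℝ) : ℂ)‖ ^ 2)⁻¹) MeasureTheory.volume 0 (2 * Real.pi) := by
    refine IntervalIntegrable.mul_continuousOn h1 ?_
    apply ContinuousOn.inv₀
    · fun_prop
    · intro θ _
      exact hne θ
  refine h2.congr ?_
  intro θ _
  simp only
  rw [mul_comm (‖circleMap 0 1 θ - ((a' : ℝ) : ℂ)‖ ^ 2), mul_assoc, mul_inv_cancel₀ (hne θ), mul_one]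

end

end Pool.Agent.B5.H09
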